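import Pool.Agent.helper18.KU.Spec

set_option autoImplicit false

namespace Pool.Agent.KU

open Finset

noncomputable section

theorem SPS_count {κ α : Type} [DecidableEq α] (K : Finset κ) (g : κ → α) (a : α) :
    (K.filter fun k => g k = a).card = Multiset.count a (K.val.map g) := by
  rw [Multiset.count_map, Finset.card_def, Finset.filter_val]
  congr 1
  apply Multiset.filter_congr
  intro x _
  exact eq_comm

theorem SPS (hGEN : GEN_stmt) (hCHS : CHS_stmt) : SPS_stmt := by
  intro V _ S T X w hw hTS h1 h2
  obtain ⟨h1, φ1, H1⟩ := h1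
  obtain ⟨h2, φ2, H2⟩ := h2
  let A : V → Multiset (Option V) := fun v =>
    Multiset.replicate (X v) none + ∑ u ∈ T, Multiset.replicate (w v u) (some u)
  have hAcard : ∀ v, Multiset.card (A v) = X v + dg w T v := by
    intro v
    simp [A, dg]
  have hAnone : ∀ v, (A v).count none = X v := by
    intro v
    simp [A, Multiset.count_sum', Multiset.count_replicate]
  have hAsome : ∀ v u, u ∈ T → (A v).count (some u) = w v u := by
    intro v u hu
    simp [A, Multiset.count_sum', Multiset.count_replicate, hu]
  have hAmem : ∀ v u, some u ∈ A v → u ∈ T := by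
    intro v u hu
    simp only [A, Multiset.mem_add, Multiset.mem_sum] at hu
    rcases hu with hu | ⟨z, hz, hu⟩
    · have := Multiset.eq_of_mem_replicate hu
      simp at this
    · have := Multiset.eq_of_mem_replicate hu
      rw [Option.some.injEq] at this
      rw [this]; exact hz
  have hg : ∀ v, ∃ g : ZMod 3 → Option V, v ∈ S \ T → (univ.filter fun k => h2 v k = none).val.map g = A v := by
    intro v
    by_cases hv : v ∈ S \ T
    · obtain ⟨g, hg⟩ := hCHS (ZMod 3) (Option V) (univ.filter fun k => h2 v k = none) (A v)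
        (by rw [hAcard, H2.cX v hv])
      exact ⟨g, fun _ => hg⟩
    · exact ⟨fun _ => none, fun h => absurd h hv⟩
  choose g hg using hg
  have hgT : ∀ v, v ∈ S \ T → ∀ k u, h2 v k = none → g v k = some u → u ∈ T := by
    intro v hv k u hk hgk
    apply hAmem v u
    rw [← hg v hv, ← hgk]
    exact Multiset.mem_map_of_mem _ (by simp [hk])
  obtain ⟨τ, -, -, hτ⟩ := hGEN ((T ×ˢ (S \ T)).image fun p => φ1 p.1 - φ2 p.2) 0 1 one_pos
  let h : V → ZMod 3 → Option V := fun v k => if v ∈ T then h1 v k else if h2 v k = none then g v k else h2 v k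
  let φ : V → ℝ := fun v => if v ∈ T then φ1 v else φ2 v + τ
  have hT : ∀ v ∈ T, ∀ k, h v k = h1 v k := fun v hv k => by simp only [h, hv, if_true]
  have hN : ∀ v, v ∉ T → ∀ k, h2 v k = none → h v k = g v k := fun v hv k hk => by simp only [h, hv, hk, if_true, if_false]
  have hN' : ∀ v, v ∉ T → ∀ k, h2 v k ≠ none → h v k = h2 v k := fun v hv k hk => by simp only [h, hv, hk, if_false]
  -- slots of a vertex outside of `T`
  have hcount : ∀ v ∈ S, v ∉ T → ∀ a : Option V, (∀ k, h2 v k ≠ none → h2 v k ≠ a) →
      (univ.filter fun k => h v k = a).card = (A v).count a := by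
    intro v hv hvT a ha
    rw [← hg v (mem_sdiff.mpr ⟨hv, hvT⟩), ← SPS_count, Finset.filter_filter]
    congr 1
    apply Finset.filter_congr
    intro k _
    by_cases hk : h2 v k = none
    · rw [hN v hvT k hk]; simp [hk]
    · rw [hN' v hvT k hk]
      constructor
      · intro h; exact absurd h (ha k hk)
      · intro h; exact absurd h.1 hk
  refine ⟨h, φ, ?_, ?_, ?_, ?_, ?_⟩
  · intro v hv k u hu
    by_cases hvT : v ∈ T
    · rw [hT v hvT] at hu
      obtain ⟨h3, h4⟩ := H1.mem v hvT k u hu
      exact ⟨hTS h3, h4⟩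
    · have hvS : v ∈ S \ T := mem_sdiff.mpr ⟨hv, hvT⟩
      by_cases hk : h2 v k = none
      · rw [hN v hvT k hk] at hu
        have h3 := hgT v hvS k u hk hu
        exact ⟨hTS h3, fun h => hvT (h ▸ h3)⟩
      · rw [hN' v hvT k hk] at hu
        obtain ⟨h3, h4⟩ := H2.mem v hvS k u hu
        exact ⟨(mem_sdiff.mp h3).1, h4⟩
  · intro v hv
    by_cases hvT : v ∈ T
    · rw [← H1.cX v hvT]
      congr 1
      apply Finset.filter_congr
      intro k _
      rw [hT v hvT]
    · rw [hcount v hv hvT none (fun k hk => hk), hAnone]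
  · -- edges between `T` and the rest
    have hmix : ∀ u ∈ T, ∀ v ∈ S, v ∉ T →
        (univ.filter fun k => h u k = some v).card = 0 ∧ (univ.filter fun k => h v k = some u).card = w v u := by
      intro u hu v hv hvT
      constructor
      · rw [Finset.card_eq_zero, Finset.filter_eq_empty_iff]
        intro k _ hk
        rw [hT u hu] at hk
        exact hvT (H1.mem u hu k v hk).1
      · rw [hcount v hv hvT (some u), hAsome v u hu]
        intro k _ hk
        exact (mem_sdiff.mp (H2.mem v (mem_sdiff.mpr ⟨hv, hvT⟩) k u hk).1).2 hu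
    have hout : ∀ u ∈ S, u ∉ T → ∀ v ∈ S, v ∉ T → ∀ k, (h u k = some v ↔ h2 u k = some v) := by
      intro u hu huT v hv hvT k
      by_cases hk : h2 u k = none
      · rw [hN u huT k hk, hk]
        constructor
        · intro h; exact absurd (hgT u (mem_sdiff.mpr ⟨hu, huT⟩) k v hk h) hvT
        · intro h; simp at h
      · rw [hN' u huT k hk]
    intro u hu v hv huv
    by_cases huT : u ∈ T
    · by_cases hvT : v ∈ T
      · rw [← H1.cw u huT v hvT huv]
        congr 2
        · apply Finset.filter_congr
          intro k _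
          rw [hT u huT]
        · apply Finset.filter_congr
          intro k _
          rw [hT v hvT]
      · obtain ⟨h3, h4⟩ := hmix u huT v hv hvT
        rw [h3, h4, zero_add, hw.symm]
    · by_cases hvT : v ∈ T
      · obtain ⟨h3, h4⟩ := hmix v hvT u hu huT
        rw [h3, h4, add_zero]
      · rw [← H2.cw u (mem_sdiff.mpr ⟨hu, huT⟩) v (mem_sdiff.mpr ⟨hv, hvT⟩) huv]
        congr 2
        · apply Finset.filter_congr
          intro k _
          exact hout u hu huT v hv hvT k
        · apply Finset.filter_congr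
          intro k _
          exact hout v hv hvT u hu huT k
  · have hgen : ∀ u ∈ T, ∀ v ∈ S, v ∉ T → ∀ n : ℤ, φ1 u - (φ2 v + τ) ≠ n := by
      intro u hu v hv hvT n hn
      apply hτ (φ1 u - φ2 v) (mem_image.mpr ⟨(u, v), mem_product.mpr ⟨hu, mem_sdiff.mpr ⟨hv, hvT⟩⟩, rfl⟩) (-n)
      push_cast
      linarith
    intro u hu v hv huv n
    by_cases huT : u ∈ T
    · by_cases hvT : v ∈ T
      · simp only [φ, huT, hvT, if_true]
        exact H1.dist u huT v hvT huv n
      · simp only [φ, huT, hvT, if_true, if_false]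
        exact hgen u huT v hv hvT n
    · by_cases hvT : v ∈ T
      · simp only [φ, huT, hvT, if_true, if_false]
        intro hn
        apply hgen v hvT u hu huT (-n)
        push_cast
        linarith
      · simp only [φ, huT, hvT, if_false]
        intro hn
        apply H2.dist u (mem_sdiff.mpr ⟨hu, huT⟩) v (mem_sdiff.mpr ⟨hv, hvT⟩) huv n
        linarith
  · intro t
    obtain ⟨ρ1, hρ1⟩ := H1.ac t
    obtain ⟨ρ2, hρ2⟩ := H2.ac (t - τ)
    refine ⟨fun v => if v ∈ T then ρ1 v else ρ2 v + 1 + T.sup ρ1, ?_⟩
    intro v hv u hu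
    by_cases hvT : v ∈ T
    · have hφ : φ v = φ1 v := by simp only [φ, hvT, if_true]
      have hu' : ptr h1 φ1 t v = some u := by
        rw [← hu]
        unfold ptr
        rw [hT v hvT, hφ]
      have huT : u ∈ T := (H1.mem v hvT _ u hu').1
      simp only [hvT, huT, if_true]
      exact hρ1 v hvT u hu'
    · have hvS : v ∈ S \ T := mem_sdiff.mpr ⟨hv, hvT⟩
      have hφ : φ v = φ2 v + τ := by simp only [φ, hvT, if_false]
      have hfl : t - φ v = t - τ - φ2 v := by rw [hφ]; ring
      unfold ptr at hu
      rw [hfl] at hu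
      by_cases hk : h2 v ((⌊t - τ - φ2 v⌋ : ℤ) : ZMod 3) = none
      · rw [hN v hvT _ hk] at hu
        have huT := hgT v hvS _ u hk hu
        simp only [hvT, huT, if_true, if_false]
        have := Finset.le_sup (f := ρ1) huT
        omega
      · rw [hN' v hvT _ hk] at hu
        have huT : u ∉ T := (mem_sdiff.mp (H2.mem v hvS _ u hu).1).2
        simp only [hvT, huT, if_false]
        have := hρ2 v hvS u hu
        omega

end

end Pool.Agent.KU
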